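import Mathlib
import Pool.Agent.Run7.h607.PGroup

/-!
A finite `5`-group with a right 4-Engel element whose normal closure is nilpotent of class
exactly `5`.  The group consists of the `3 x 3` upper triangular matrices with diagonal
`(1, α^k, 16^k)` over the ring `(Z/625)[s] / (s^3 + 165 s^2 + 350 s + 250)`, where `α = 1 + s`,
and the right 4-Engel element is `diag (1, α, 16)`.
-/

namespace Pool.Agent.Results.MP_d7201b_al.ClassFive

/-- The commutator `[a, b] = a⁻¹ b⁻¹ a b`. -/
def comm {G : Type*} [Group G] (a b : G) : G := a⁻¹ * b⁻¹ * a * b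

/-- The left-normed commutator `[a, g, ..., g]` with `k` entries `g`:
`[a, ₀ g] = a` and `[a, ₖ₊₁ g] = [[a, ₖ g], g]`. -/
def iter {G : Type*} [Group G] (a g : G) : ℕ → G
  | 0 => a
  | k + 1 => comm (iter a g k) g

/-- The set `R_n(G)` of right `n`-Engel elements of `G`. -/
def R (n : ℕ) (G : Type*) [Group G] : Set G := {x | ∀ g : G, iter x g n = 1}

/-- The set of the nilpotency classes of the nilpotent normal closures of right
4-Engel elements. -/
def C4 : Set ℕ := {c | ∃ (G : Type) (_ : Group G) (x : G), x ∈ R 4 G ∧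
  Group.IsNilpotent (Subgroup.normalClosure {x} : Subgroup G) ∧
  Group.nilpotencyClass (Subgroup.normalClosure {x} : Subgroup G) = c}

lemma iter_four {G : Type*} [Group G] (x g : G) :
    iter x g 4 = Run7.h607.cm (Run7.h607.cm (Run7.h607.cm (Run7.h607.cm x g) g) g) g := rfl

lemma mem_R_four {G : Type*} [Group G] {x : G}
    (h : ∀ g, Run7.h607.cm (Run7.h607.cm (Run7.h607.cm (Run7.h607.cm x g) g) g) g = 1) :
    x ∈ R 4 G := fun g => by rw [iter_four]; exact h g

/-- There is a finite `5`-group with a right 4-Engel element whose normal closure is nilpotent of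
class exactly `5`; so `5` is in the set `C4` and `4` is not its greatest element. -/
theorem result :
    (∃ (G : Type) (_ : Group G) (x : G), Finite G ∧ IsPGroup 5 G ∧ x ∈ R 4 G ∧
      Group.IsNilpotent (Subgroup.normalClosure {x} : Subgroup G) ∧
      Group.nilpotencyClass (Subgroup.normalClosure {x} : Subgroup G) = 5) ∧
    5 ∈ C4 ∧ ¬ IsGreatest C4 4 := by
  have hx : Run7.h607.xx ∈ R 4 Run7.h607.GG := mem_R_four Run7.h607.xx_engel
  have h5 : 5 ∈ C4 := ⟨Run7.h607.GG, inferInstance, Run7.h607.xx, hx,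
    Run7.h607.NN_nil, Run7.h607.class_NN⟩
  refine ⟨⟨Run7.h607.GG, inferInstance, Run7.h607.xx, Run7.h607.GG_finite,
    Run7.h607.GG_pgroup, hx, Run7.h607.NN_nil, Run7.h607.class_NN⟩, h5, ?_⟩
  intro h
  have := h.2 h5
  omega

end Pool.Agent.Results.MP_d7201b_al.ClassFive
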