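import Mathlib
import Pool.Agent.Run7.h607.Tors
import Pool.Agent.Run7.h607.Ex3

/-!
Let `x` be a right 4-Engel element of an arbitrary group `G` such that the normal closure
`N = ⟨x⟩^G` is nilpotent.  Then the fourth term `γ_4(N)` of the lower central series of `N`
consists of elements whose order is finite and has no prime divisors except `2`, `3`, `5`.
So `N` has class at most `3` if `N` has no elements of order `2`, `3` or `5`, and `3` is attained.
-/

namespace Pool.Agent.Results.MP_d7201b_al.ClassThree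

universe u

/-- The commutator `[a, b] = a⁻¹ b⁻¹ a b`. -/
def comm {G : Type*} [Group G] (a b : G) : G := a⁻¹ * b⁻¹ * a * b

/-- The left-normed commutator `[a, g, ..., g]` with `k` entries `g`:
`[a, ₀ g] = a` and `[a, ₖ₊₁ g] = [[a, ₖ g], g]`. -/
def iter {G : Type*} [Group G] (a g : G) : ℕ → G
  | 0 => a
  | k + 1 => comm (iter a g k) g

/-- The set `R_n(G)` of right `n`-Engel elements of `G`. -/
def R (n : ℕ) (G : Type*) [Group G] : Set G := {x | ∀ g : G, iter x g n = 1}

/-- `y` does not have order `2`, `3` or `5`. -/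
def NoTorsion {G : Type*} [Group G] (y : G) : Prop :=
  orderOf y ≠ 2 ∧ orderOf y ≠ 3 ∧ orderOf y ≠ 5

/-- The set of the nilpotency classes of the nilpotent normal closures of right
4-Engel elements in groups without elements of order `2`, `3`, `5`. -/
def C4G : Set ℕ := {c | ∃ (G : Type) (_ : Group G) (x : G), (∀ g : G, NoTorsion g) ∧ x ∈ R 4 G ∧
  Group.IsNilpotent (Subgroup.normalClosure {x} : Subgroup G) ∧
  Group.nilpotencyClass (Subgroup.normalClosure {x} : Subgroup G) = c}

/-- The set of the nilpotency classes of those nilpotent normal closures of right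
4-Engel elements of groups that have no elements of order `2`, `3`, `5`. -/
def C4N : Set ℕ := {c | ∃ (G : Type) (_ : Group G) (x : G),
  (∀ g ∈ (Subgroup.normalClosure {x} : Subgroup G), NoTorsion g) ∧ x ∈ R 4 G ∧
  Group.IsNilpotent (Subgroup.normalClosure {x} : Subgroup G) ∧
  Group.nilpotencyClass (Subgroup.normalClosure {x} : Subgroup G) = c}

section
variable {G : Type*} [Group G]
open scoped commutatorElement

lemma br_inv (y g : G) : ⁅g⁻¹, y⁻¹⁆ = (comm y g)⁻¹ := by
  unfold comm
  rw [commutatorElement_def]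
  group

lemma iter_four (x g : G) : iter x g 4 = comm (comm (comm (comm x g) g) g) g := rfl

lemma eng_of_mem {x : G} (h : x ∈ R 4 G) : Run7.h607.Eng x⁻¹ := by
  intro g
  have hx : iter x g⁻¹ 4 = 1 := h g⁻¹
  rw [iter_four] at hx
  have e : ∀ y : G, ⁅g, y⁻¹⁆ = (comm y g⁻¹)⁻¹ := by
    intro y
    have := br_inv y g⁻¹
    rwa [inv_inv] at this
  rw [e, e, e, e, hx, inv_one]

lemma mem_of_eng {x : G} (h : Run7.h607.Eng x⁻¹) : x ∈ R 4 G := by
  intro g
  have h1 := h g⁻¹
  rw [br_inv, br_inv, br_inv, br_inv] at h1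
  rw [iter_four]
  exact inv_eq_one.mp h1

lemma closure_inv (x : G) :
    (Subgroup.normalClosure {x⁻¹} : Subgroup G) = Subgroup.normalClosure {x} := by
  apply le_antisymm
  · apply Subgroup.normalClosure_le_normal
    rintro y hy
    rw [Set.mem_singleton_iff] at hy
    subst hy
    exact inv_mem (Subgroup.subset_normalClosure (Set.mem_singleton x))
  · apply Subgroup.normalClosure_le_normal
    rintro y hy
    rw [Set.mem_singleton_iff] at hy
    subst hy
    have : y⁻¹ ∈ (Subgroup.normalClosure {y⁻¹} : Subgroup G) :=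
      Subgroup.subset_normalClosure (Set.mem_singleton _)
    exact inv_mem_iff.mp this

lemma prime_power_one {p : ℕ} [Fact p.Prime] {y : G} (h : orderOf y ≠ p) (h1 : y ^ p = 1) :
    y = 1 := by
  by_contra hne
  exact h (orderOf_eq_prime h1 hne)

lemma thirty {N : Subgroup G} (h : ∀ y ∈ N, NoTorsion y) {y : G} (hy : y ∈ N)
    (h1 : y ^ 30 = 1) : y = 1 := by
  have h2 : (y ^ 15) ^ 2 = 1 := by rw [← pow_mul]; exact h1
  have h3 : y ^ 15 = 1 := by
    have : Fact (Nat.Prime 2) := ⟨Nat.prime_two⟩
    exact prime_power_one (h _ (pow_mem hy 15)).1 h2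
  have h4 : (y ^ 5) ^ 3 = 1 := by rw [← pow_mul]; exact h3
  have h5 : y ^ 5 = 1 := by
    have : Fact (Nat.Prime 3) := ⟨Nat.prime_three⟩
    exact prime_power_one (h _ (pow_mem hy 5)).2.1 h4
  have : Fact (Nat.Prime 5) := ⟨Nat.prime_five⟩
  exact prime_power_one (h _ hy).2.2 h5

lemma thirty_pow {N : Subgroup G} (h : ∀ y ∈ N, NoTorsion y) (k : ℕ) : ∀ {y : G}, y ∈ N →
    y ^ (30 ^ k) = 1 → y = 1 := by
  induction k with
  | zero => intro y _ h1; simpa using h1
  | succ k ih =>
    intro y hy h1
    rw [pow_succ', pow_mul] at h1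
    exact thirty h hy (ih (pow_mem hy 30) h1)

end

lemma gamma_four {G : Type u} [Group G] {x : G} (hx : x ∈ R 4 G)
    (hn : Group.IsNilpotent (Subgroup.normalClosure {x} : Subgroup G)) :
    ∀ y ∈ (Subgroup.normalClosure {x} : Subgroup G).lowerCentralSeries 3,
      ∃ k : ℕ, y ^ (30 ^ k) = 1 := by
  have h := Run7.h607.gamma_four (eng_of_mem hx)
  rw [closure_inv x] at h
  exact h hn

lemma class_le {G : Type u} [Group G] {x : G} (hx : x ∈ R 4 G)
    (hn : Group.IsNilpotent (Subgroup.normalClosure {x} : Subgroup G))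
    (ht : ∀ y ∈ (Subgroup.normalClosure {x} : Subgroup G), NoTorsion y) :
    Group.nilpotencyClass (Subgroup.normalClosure {x} : Subgroup G) ≤ 3 := by
  set N := (Subgroup.normalClosure {x} : Subgroup G) with hN
  rw [← Subgroup.lowerCentralSeries_eq_bot_iff_nilpotencyClass_le,
    ← Subgroup.map_eq_bot_iff_of_injective _ N.subtype_injective,
    Subgroup.top_subtype_lowerCentralSeries, eq_bot_iff]
  intro y hy
  obtain ⟨k, hk⟩ := gamma_four hx hn y hy
  have hyN : y ∈ N := (N.lowerCentralSeries_antitone (Nat.zero_le 3) hy)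
  exact Subgroup.mem_bot.mpr (thirty_pow ht k hyN hk)

lemma ex_three : ∃ (G : Type) (_ : Group G) (x : G), (∀ g : G, NoTorsion g) ∧ x ∈ R 4 G ∧
    Group.IsNilpotent (Subgroup.normalClosure {x} : Subgroup G) ∧
    Group.nilpotencyClass (Subgroup.normalClosure {x} : Subgroup G) = 3 := by
  have hord : ∀ (g : Run7.h607.E5) (n : ℕ), 1 < n → orderOf g ≠ n := by
    intro g n hn ho
    have h1 : g ^ n = 1 := by rw [← ho]; exact pow_orderOf_eq_one g
    have h2 := Run7.h607.E5.torsion_free g n (by omega) h1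
    rw [h2, orderOf_one] at ho
    omega
  have hx : Run7.h607.E5.x ∈ R 4 Run7.h607.E5 :=
    mem_of_eng (fun h => Run7.h607.E5.engel h _)
  have hnil : Group.IsNilpotent (Subgroup.normalClosure {Run7.h607.E5.x} :
      Subgroup Run7.h607.E5) := by
    rw [Subgroup.isNilpotent_iff_lowerCentralSeries]
    exact ⟨3, Run7.h607.E5.lcs3_eq⟩
  refine ⟨Run7.h607.E5, inferInstance, Run7.h607.E5.x,
    fun g => ⟨hord g 2 (by norm_num), hord g 3 (by norm_num), hord g 5 (by norm_num)⟩,
    hx, hnil, ?_⟩
  apply le_antisymm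
  · rw [← Subgroup.lowerCentralSeries_eq_bot_iff_nilpotencyClass_le,
      ← Subgroup.map_eq_bot_iff_of_injective _
        (Subgroup.normalClosure {Run7.h607.E5.x} : Subgroup Run7.h607.E5).subtype_injective,
      Subgroup.top_subtype_lowerCentralSeries]
    exact Run7.h607.E5.lcs3_eq
  · by_contra hlt
    have h2 : Group.nilpotencyClass
        (Subgroup.normalClosure {Run7.h607.E5.x} : Subgroup Run7.h607.E5) ≤ 2 := by omega
    rw [← Subgroup.lowerCentralSeries_eq_bot_iff_nilpotencyClass_le,
      ← Subgroup.map_eq_bot_iff_of_injective _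
        (Subgroup.normalClosure {Run7.h607.E5.x} : Subgroup Run7.h607.E5).subtype_injective,
      Subgroup.top_subtype_lowerCentralSeries] at h2
    exact Run7.h607.E5.lcs2_ne h2

/-- (1) If `x` is a right 4-Engel element of a group `G` with nilpotent normal closure `N`, then
every `y ∈ γ_4(N)` satisfies `y ^ (30 ^ k) = 1` for some `k`.
(2) If moreover `N` has no elements of order `2`, `3`, `5`, then `N` has class at most `3`.
(3), (4) The bound `3` is attained, also for groups `G` without elements of order `2`, `3`, `5`. -/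
theorem result :
    (∀ (G : Type u) [Group G] (x : G), x ∈ R 4 G →
      Group.IsNilpotent (Subgroup.normalClosure {x} : Subgroup G) →
      ∀ y ∈ (Subgroup.normalClosure {x} : Subgroup G).lowerCentralSeries 3,
        ∃ k : ℕ, y ^ (30 ^ k) = 1) ∧
    (∀ (G : Type u) [Group G] (x : G), x ∈ R 4 G →
      Group.IsNilpotent (Subgroup.normalClosure {x} : Subgroup G) →
      (∀ y ∈ (Subgroup.normalClosure {x} : Subgroup G), NoTorsion y) →
      Group.nilpotencyClass (Subgroup.normalClosure {x} : Subgroup G) ≤ 3) ∧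
    IsGreatest C4G 3 ∧ IsGreatest C4N 3 := by
  obtain ⟨G, iG, x, h1, h2, h3, h4⟩ := ex_three
  refine ⟨fun G _ x hx hn => gamma_four hx hn, fun G _ x hx hn ht => class_le hx hn ht,
    ⟨⟨G, iG, x, h1, h2, h3, h4⟩, ?_⟩, ⟨⟨G, iG, x, fun g _ => h1 g, h2, h3, h4⟩, ?_⟩⟩
  · rintro c ⟨G, iG, x, h1, h2, h3, rfl⟩
    exact class_le h2 h3 (fun y _ => h1 y)
  · rintro c ⟨G, iG, x, h1, h2, h3, rfl⟩
    exact class_le h2 h3 h1

end Pool.Agent.Results.MP_d7201b_al.ClassThree
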