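import Mathlib
import Pool.Agent.Run7.h607.Fin5

/-!
Let `x` be a right 4-Engel element of an arbitrary group `G` such that the normal closure
`N = ⟨x⟩^G` is nilpotent.  Then the fifth term `γ_5(N)` of the lower central series of `N` is
contained in the second derived subgroup `N''`.  In particular, if `N` is metabelian, then `N`
has class at most `4`.  There is no hypothesis on the orders of elements.
-/

namespace Pool.Agent.Results.MP_d7201b_al.Metabelian

universe u

/-- The commutator `[a, b] = a⁻¹ b⁻¹ a b`. -/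
def comm {G : Type*} [Group G] (a b : G) : G := a⁻¹ * b⁻¹ * a * b

/-- The left-normed commutator `[a, g, ..., g]` with `k` entries `g`:
`[a, ₀ g] = a` and `[a, ₖ₊₁ g] = [[a, ₖ g], g]`. -/
def iter {G : Type*} [Group G] (a g : G) : ℕ → G
  | 0 => a
  | k + 1 => comm (iter a g k) g

/-- The set `R_n(G)` of right `n`-Engel elements of `G`. -/
def R (n : ℕ) (G : Type*) [Group G] : Set G := {x | ∀ g : G, iter x g n = 1}

section
variable {G : Type*} [Group G]
open scoped commutatorElement

lemma br_inv (y g : G) : ⁅g⁻¹, y⁻¹⁆ = (comm y g)⁻¹ := by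
  unfold comm
  rw [commutatorElement_def]
  group

lemma iter_four (x g : G) : iter x g 4 = comm (comm (comm (comm x g) g) g) g := rfl

lemma eng_of_mem {x : G} (h : x ∈ R 4 G) : Run7.h607.Eng x⁻¹ := by
  intro g
  have hx : iter x g⁻¹ 4 = 1 := h g⁻¹
  rw [iter_four] at hx
  have e : ∀ y : G, ⁅g, y⁻¹⁆ = (comm y g⁻¹)⁻¹ := by
    intro y
    have := br_inv y g⁻¹
    rwa [inv_inv] at this
  rw [e, e, e, e, hx, inv_one]

lemma closure_inv (x : G) :
    (Subgroup.normalClosure {x⁻¹} : Subgroup G) = Subgroup.normalClosure {x} := by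
  apply le_antisymm
  · apply Subgroup.normalClosure_le_normal
    rintro y hy
    rw [Set.mem_singleton_iff] at hy
    subst hy
    exact inv_mem (Subgroup.subset_normalClosure (Set.mem_singleton x))
  · apply Subgroup.normalClosure_le_normal
    rintro y hy
    rw [Set.mem_singleton_iff] at hy
    subst hy
    have : y⁻¹ ∈ (Subgroup.normalClosure {y⁻¹} : Subgroup G) :=
      Subgroup.subset_normalClosure (Set.mem_singleton _)
    exact inv_mem_iff.mp this

end

lemma gamma_five_le {G : Type u} [Group G] {x : G} (hx : x ∈ R 4 G) {N : Subgroup G}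
    (hN : N = Subgroup.normalClosure {x}) (hn : Group.IsNilpotent N) :
    N.lowerCentralSeries 4 ≤ ⁅⁅N, N⁆, ⁅N, N⁆⁆ := by
  subst hN
  have h := Run7.h607.gamma_five_le (eng_of_mem hx)
  rw [closure_inv x] at h
  exact h hn

/-- Let `x` be a right 4-Engel element of a group `G` such that `N = ⟨x⟩^G` is nilpotent.
(1) `γ_5(N) ≤ N''`.  (2) If `N` is metabelian, then `N` has class at most `4`. -/
theorem result :
    (∀ (G : Type u) [Group G] (x : G), x ∈ R 4 G →
      ∀ N : Subgroup G, N = Subgroup.normalClosure {x} → Group.IsNilpotent N →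
        N.lowerCentralSeries 4 ≤ ⁅⁅N, N⁆, ⁅N, N⁆⁆) ∧
    (∀ (G : Type u) [Group G] (x : G), x ∈ R 4 G →
      ∀ N : Subgroup G, N = Subgroup.normalClosure {x} → Group.IsNilpotent N →
        ⁅⁅N, N⁆, ⁅N, N⁆⁆ = ⊥ → Group.nilpotencyClass N ≤ 4) := by
  refine ⟨fun G _ x hx N hN hn => gamma_five_le hx hN hn, fun G _ x hx N hN hn hM => ?_⟩
  rw [← Subgroup.lowerCentralSeries_eq_bot_iff_nilpotencyClass_le,
    ← Subgroup.map_eq_bot_iff_of_injective _ N.subtype_injective,
    Subgroup.top_subtype_lowerCentralSeries, eq_bot_iff, ← hM]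
  exact gamma_five_le hx hN hn

end Pool.Agent.Results.MP_d7201b_al.Metabelian
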