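import Mathlib
import Pool.Agent.Run7.h607.Fin6

/-!
Let `x` be a right 4-Engel element of an arbitrary group `G` and `N = ⟨x⟩^G` its normal closure.
There is an absolute constant `M` such that all the factors `γ_k(N)/γ_{k+1}(N)` with `k ≥ 6` have
exponent dividing `10 ^ M`.  So, if `N` is nilpotent, then `γ_6(N)` is a `{2,5}`-group, and if `N`
is nilpotent and has no elements of order `2` or `5`, then `N` has class at most `5`; elements of
order `3` are allowed.
-/

namespace Pool.Agent.Results.MP_d7201b_al.ThreeTorsion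

universe u

/-- The commutator `[a, b] = a⁻¹ b⁻¹ a b`. -/
def comm {G : Type*} [Group G] (a b : G) : G := a⁻¹ * b⁻¹ * a * b

/-- The left-normed commutator `[a, g, ..., g]` with `k` entries `g`:
`[a, ₀ g] = a` and `[a, ₖ₊₁ g] = [[a, ₖ g], g]`. -/
def iter {G : Type*} [Group G] (a g : G) : ℕ → G
  | 0 => a
  | k + 1 => comm (iter a g k) g

/-- The set `R_n(G)` of right `n`-Engel elements of `G`. -/
def R (n : ℕ) (G : Type*) [Group G] : Set G := {x | ∀ g : G, iter x g n = 1}

section
variable {G : Type*} [Group G]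
open scoped commutatorElement

lemma br_inv (y g : G) : ⁅g⁻¹, y⁻¹⁆ = (comm y g)⁻¹ := by
  unfold comm
  rw [commutatorElement_def]
  group

lemma iter_four (x g : G) : iter x g 4 = comm (comm (comm (comm x g) g) g) g := rfl

lemma eng_of_mem {x : G} (h : x ∈ R 4 G) : Run7.h607.Eng x⁻¹ := by
  intro g
  have hx : iter x g⁻¹ 4 = 1 := h g⁻¹
  rw [iter_four] at hx
  have e : ∀ y : G, ⁅g, y⁻¹⁆ = (comm y g⁻¹)⁻¹ := by
    intro y
    have := br_inv y g⁻¹
    rwa [inv_inv] at this
  rw [e, e, e, e, hx, inv_one]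

lemma closure_inv (x : G) :
    (Subgroup.normalClosure {x⁻¹} : Subgroup G) = Subgroup.normalClosure {x} := by
  apply le_antisymm
  · apply Subgroup.normalClosure_le_normal
    rintro y hy
    rw [Set.mem_singleton_iff] at hy
    subst hy
    exact inv_mem (Subgroup.subset_normalClosure (Set.mem_singleton x))
  · apply Subgroup.normalClosure_le_normal
    rintro y hy
    rw [Set.mem_singleton_iff] at hy
    subst hy
    have : y⁻¹ ∈ (Subgroup.normalClosure {y⁻¹} : Subgroup G) :=
      Subgroup.subset_normalClosure (Set.mem_singleton _)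
    exact inv_mem_iff.mp this

lemma prime_power_one {p : ℕ} [Fact p.Prime] {y : G} (h : orderOf y ≠ p) (h1 : y ^ p = 1) :
    y = 1 := by
  by_contra hne
  exact h (orderOf_eq_prime h1 hne)

lemma ten {N : Subgroup G} (h : ∀ y ∈ N, orderOf y ≠ 2 ∧ orderOf y ≠ 5) {y : G} (hy : y ∈ N)
    (h1 : y ^ 10 = 1) : y = 1 := by
  have h2 : (y ^ 5) ^ 2 = 1 := by rw [← pow_mul]; exact h1
  have h3 : y ^ 5 = 1 := by
    have : Fact (Nat.Prime 2) := ⟨Nat.prime_two⟩
    exact prime_power_one (h _ (pow_mem hy 5)).1 h2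
  have : Fact (Nat.Prime 5) := ⟨Nat.prime_five⟩
  exact prime_power_one (h _ hy).2 h3

lemma ten_pow {N : Subgroup G} (h : ∀ y ∈ N, orderOf y ≠ 2 ∧ orderOf y ≠ 5) (k : ℕ) :
    ∀ {y : G}, y ∈ N → y ^ (10 ^ k) = 1 → y = 1 := by
  induction k with
  | zero => intro y _ h1; simpa using h1
  | succ k ih =>
    intro y hy h1
    rw [pow_succ', pow_mul] at h1
    exact ten h hy (ih (pow_mem hy 10) h1)

end

/-- Let `x` be a right 4-Engel element of a group `G` and let `N = ⟨x⟩^G`.
(1) There is an absolute constant `M` such that `y ^ (10 ^ M)` lies in `γ_{k+2}(N)` for all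
`k ≥ 5` and all `y` in `γ_{k+1}(N)`.
(2) If `N` is nilpotent, then every `y ∈ γ_6(N)` satisfies `y ^ (10 ^ j) = 1` for some `j`.
(3) If `N` is nilpotent and has no elements of order `2` or `5`, then it has class at most `5`. -/
theorem result :
    (∃ M : ℕ, ∀ (G : Type u) [Group G] (x : G), x ∈ R 4 G →
      ∀ N : Subgroup G, N = Subgroup.normalClosure {x} → ∀ k : ℕ, 5 ≤ k →
        ∀ y ∈ N.lowerCentralSeries k, y ^ (10 ^ M) ∈ N.lowerCentralSeries (k + 1)) ∧
    (∀ (G : Type u) [Group G] (x : G), x ∈ R 4 G →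
      ∀ N : Subgroup G, N = Subgroup.normalClosure {x} → Group.IsNilpotent N →
        ∀ y ∈ N.lowerCentralSeries 5, ∃ j : ℕ, y ^ (10 ^ j) = 1) ∧
    (∀ (G : Type u) [Group G] (x : G), x ∈ R 4 G →
      ∀ N : Subgroup G, N = Subgroup.normalClosure {x} → Group.IsNilpotent N →
        (∀ y ∈ N, orderOf y ≠ 2 ∧ orderOf y ≠ 5) → Group.nilpotencyClass N ≤ 5) := by
  obtain ⟨M, hM⟩ := Run7.h607.main6.{u}
  have h2 : ∀ (G : Type u) [Group G] (x : G), x ∈ R 4 G →
      ∀ N : Subgroup G, N = Subgroup.normalClosure {x} → Group.IsNilpotent N →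
        ∀ y ∈ N.lowerCentralSeries 5, ∃ j : ℕ, y ^ (10 ^ j) = 1 := by
    intro G _ x hx N hN hn
    subst hN
    have h := (hM G x⁻¹ (eng_of_mem hx)).2
    rw [closure_inv x] at h
    exact h hn
  refine ⟨⟨M, ?_⟩, h2, ?_⟩
  · intro G _ x hx N hN k hk
    subst hN
    have h := (hM G x⁻¹ (eng_of_mem hx)).1
    rw [closure_inv x] at h
    obtain ⟨t, rfl⟩ := Nat.exists_eq_add_of_le hk
    exact h t
  · intro G _ x hx N hN hn ht
    rw [← Subgroup.lowerCentralSeries_eq_bot_iff_nilpotencyClass_le,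
      ← Subgroup.map_eq_bot_iff_of_injective _ N.subtype_injective,
      Subgroup.top_subtype_lowerCentralSeries, eq_bot_iff]
    intro y hy
    obtain ⟨j, hj⟩ := h2 G x hx N hN hn y hy
    have hyN : y ∈ N := N.lowerCentralSeries_antitone (Nat.zero_le 5) hy
    exact Subgroup.mem_bot.mpr (ten_pow ht j hyN hj)

end Pool.Agent.Results.MP_d7201b_al.ThreeTorsion
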